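import Mathlib

/-! Project ME: job C1 (traces on a coset), linear algebra. -/

set_option autoImplicit false

namespace Pool.Agent.H640.ME.LA

open Matrix

section

variable {G : Type} [Group G] {n : ℕ} {C : Type} [Field C] (ρ : G →* GL (Fin n) C)
  (U : Subgroup G) (g : G)

/-- sums of characters -/
def Good (F : G → C) : Prop :=
  ∃ (κ : Type) (_ : Fintype κ) (i : κ → Fin n)
    (ξ : κ → ((U ⊔ Subgroup.zpowers g : Subgroup G) →* Cˣ)),
    (∀ k, ∀ u ∈ U, ∀ h : u ∈ U ⊔ Subgroup.zpowers g,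
      (ξ k ⟨u, h⟩ : C) = (ρ u : Matrix (Fin n) (Fin n) C) (i k) (i k)) ∧
    ∀ u ∈ U, ∀ h : g * u ∈ U ⊔ Subgroup.zpowers g, F u = ∑ k, (ξ k ⟨g * u, h⟩ : C)

variable {ρ U g}

theorem good_zero : Good ρ U g (fun _ => 0) :=
  ⟨Empty, inferInstance, Empty.elim, fun k => k.elim, fun k => k.elim, fun u _ h => by simp⟩

theorem good_add {F F' : G → C} (h : Good ρ U g F) (h' : Good ρ U g F') :
    Good ρ U g (fun u => F u + F' u) := by
  obtain ⟨κ, _, i, ξ, h1, h2⟩ := h
  obtain ⟨κ', _, i', ξ', h1', h2'⟩ := h'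
  refine ⟨κ ⊕ κ', inferInstance, Sum.elim i i', Sum.elim ξ ξ', ?_, ?_⟩
  · rintro (k | k)
    · exact h1 k
    · exact h1' k
  · intro u hu h
    rw [Fintype.sum_sum_type]
    show F u + F' u = (∑ k, (ξ k ⟨g * u, h⟩ : C)) + ∑ k, (ξ' k ⟨g * u, h⟩ : C)
    rw [h2 u hu h, h2' u hu h]

theorem good_congr {F F' : G → C} (h : Good ρ U g F) (hF : ∀ u ∈ U, F' u = F u) :
    Good ρ U g F' := by
  obtain ⟨κ, hκ, i, ξ, h1, h2⟩ := h
  exact ⟨κ, hκ, i, ξ, h1, fun u hu h => (hF u hu).trans (h2 u hu h)⟩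

theorem good_sum {ι : Type} (s : Finset ι) (F : ι → G → C) (h : ∀ i ∈ s, Good ρ U g (F i)) :
    Good ρ U g (fun u => ∑ i ∈ s, F i u) := by
  classical
  induction s using Finset.induction_on with
  | empty => exact good_congr good_zero fun u _ => Finset.sum_empty
  | insert a s ha ih =>
    refine good_congr (good_add (h a (Finset.mem_insert_self a s))
      (ih fun i hi => h i (Finset.mem_insert_of_mem hi))) ?_
    intro u _
    exact Finset.sum_insert ha

/-- the elements with the eigenvector `v` -/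
def EV (ρ : G →* GL (Fin n) C) (v : Fin n → C) : Subgroup G where
  carrier := {h | ∃ c : Cˣ, (ρ h : Matrix (Fin n) (Fin n) C).mulVec v = (c : C) • v}
  mul_mem' := by
    rintro a b ⟨c, hc⟩ ⟨c', hc'⟩
    refine ⟨c * c', ?_⟩
    rw [map_mul, Units.val_mul, ← Matrix.mulVec_mulVec, hc', Matrix.mulVec_smul, hc, smul_smul,
      Units.val_mul, mul_comm (c' : C)]
  one_mem' := ⟨1, by rw [map_one, Units.val_one, Matrix.one_mulVec, Units.val_one, one_smul]⟩
  inv_mem' := by
    rintro a ⟨c, hc⟩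
    refine ⟨c⁻¹, ?_⟩
    have h1 : (ρ a⁻¹ : Matrix (Fin n) (Fin n) C).mulVec
        ((ρ a : Matrix (Fin n) (Fin n) C).mulVec v) = v := by
      rw [Matrix.mulVec_mulVec, ← Units.val_mul, ← map_mul, inv_mul_cancel, map_one, Units.val_one,
        Matrix.one_mulVec]
    rw [hc, Matrix.mulVec_smul] at h1
    calc (ρ a⁻¹ : Matrix (Fin n) (Fin n) C).mulVec v
        = ((c⁻¹ : Cˣ) : C) • ((c : C) • (ρ a⁻¹ : Matrix (Fin n) (Fin n) C).mulVec v) := by
          rw [smul_smul, Units.inv_mul, one_smul]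
      _ = ((c⁻¹ : Cˣ) : C) • v := by rw [h1]

theorem good_single (j : Fin n) (μ : C) (hμ : μ ≠ 0) (v : Fin n → C) (hv : v ≠ 0)
    (hg : (ρ g : Matrix (Fin n) (Fin n) C).mulVec v = μ • v)
    (hU : ∀ u ∈ U, (ρ u : Matrix (Fin n) (Fin n) C).mulVec v =
      (ρ u : Matrix (Fin n) (Fin n) C) j j • v)
    (hj : ∀ u ∈ U, (ρ u : Matrix (Fin n) (Fin n) C) j j ≠ 0) :
    Good ρ U g (fun u => μ * (ρ u : Matrix (Fin n) (Fin n) C) j j) := by
  have hle : U ⊔ Subgroup.zpowers g ≤ EV ρ v := by
    apply sup_le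
    · intro u hu
      exact ⟨Units.mk0 _ (hj u hu), hU u hu⟩
    · rw [Subgroup.zpowers_le]
      exact ⟨Units.mk0 μ hμ, hg⟩
  have huniq : ∀ c c' : C, c • v = c' • v → c = c' := fun c c' h => smul_left_injective C hv h
  choose f hf using fun h : (U ⊔ Subgroup.zpowers g : Subgroup G) => hle h.2
  let ξ : (U ⊔ Subgroup.zpowers g : Subgroup G) →* Cˣ := MonoidHom.mk' f (by
    intro a b
    apply Units.ext
    apply huniq
    rw [← hf, Subgroup.coe_mul, map_mul, Units.val_mul, ← Matrix.mulVec_mulVec, hf b,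
      Matrix.mulVec_smul, hf a, smul_smul, Units.val_mul, mul_comm (f b : C)])
  have hξ : ∀ h, ξ h = f h := fun _ => rfl
  refine ⟨Unit, inferInstance, fun _ => j, fun _ => ξ, ?_, ?_⟩
  · intro _ u hu h
    rw [hξ]
    apply huniq
    rw [← hf]
    exact hU u hu
  · intro u hu h
    rw [Fintype.sum_unique, hξ]
    apply huniq
    rw [← hf]
    show _ = (ρ (g * u) : Matrix (Fin n) (Fin n) C).mulVec v
    rw [map_mul, Units.val_mul, ← Matrix.mulVec_mulVec, hU u hu, Matrix.mulVec_smul, hg,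
      smul_smul, mul_comm]

/-- the commutation rule for entries -/
theorem entry_rule (hN : U.Normal) (hD : ∀ u ∈ U, (ρ u : Matrix (Fin n) (Fin n) C).IsDiag)
    (i l : Fin n) (u : G) (hu : u ∈ U) :
    (ρ g : Matrix (Fin n) (Fin n) C) i l * (ρ u : Matrix (Fin n) (Fin n) C) l l =
      (ρ (g * u * g⁻¹) : Matrix (Fin n) (Fin n) C) i i * (ρ g : Matrix (Fin n) (Fin n) C) i l := by
  have h1 : (ρ g : Matrix (Fin n) (Fin n) C) * (ρ u : Matrix (Fin n) (Fin n) C) =
      (ρ (g * u * g⁻¹) : Matrix (Fin n) (Fin n) C) * (ρ g : Matrix (Fin n) (Fin n) C) := by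
    rw [← Units.val_mul, ← Units.val_mul, ← map_mul, ← map_mul, inv_mul_cancel_right]
  have h2 := congrFun (congrFun h1 i) l
  rw [Matrix.mul_apply, Matrix.mul_apply, Finset.sum_eq_single l, Finset.sum_eq_single i] at h2
  · exact h2
  · intro k _ hk
    rw [hD _ (hN.conj_mem u hu g) (Ne.symm hk), zero_mul]
  · intro h
    exact absurd (Finset.mem_univ _) h
  · intro k _ hk
    rw [hD u hu hk, mul_zero]
  · intro h
    exact absurd (Finset.mem_univ _) h

theorem diag_ne (hD : ∀ u ∈ U, (ρ u : Matrix (Fin n) (Fin n) C).IsDiag) (j : Fin n) (u : G)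
    (hu : u ∈ U) : (ρ u : Matrix (Fin n) (Fin n) C) j j ≠ 0 := by
  intro h
  have h1 : (ρ u : Matrix (Fin n) (Fin n) C) * (ρ u⁻¹ : Matrix (Fin n) (Fin n) C) = 1 := by
    rw [← Units.val_mul, ← map_mul, mul_inv_cancel, map_one, Units.val_one]
  have h2 := congrFun (congrFun h1 j) j
  rw [Matrix.mul_apply, Matrix.one_apply_eq, Finset.sum_eq_single j, h, zero_mul] at h2
  · exact zero_ne_one h2
  · intro k _ hk
    rw [hD u hu (Ne.symm hk), zero_mul]
  · intro h
    exact absurd (Finset.mem_univ _) h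

open Classical in
theorem good_class [IsAlgClosed C] (hN : U.Normal)
    (hD : ∀ u ∈ U, (ρ u : Matrix (Fin n) (Fin n) C).IsDiag) (j : Fin n) :
    Good ρ U g (fun u => (∑ i, if (∀ w ∈ U, (ρ w : Matrix (Fin n) (Fin n) C) i i =
      (ρ w : Matrix (Fin n) (Fin n) C) j j) then (ρ g : Matrix (Fin n) (Fin n) C) i i else 0) *
      (ρ u : Matrix (Fin n) (Fin n) C) j j) := by
  by_cases hfix : ∀ u ∈ U, (ρ (g * u * g⁻¹) : Matrix (Fin n) (Fin n) C) j j =
      (ρ u : Matrix (Fin n) (Fin n) C) j j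
  · set J : Fin n → Prop := fun i => ∀ w ∈ U, (ρ w : Matrix (Fin n) (Fin n) C) i i =
      (ρ w : Matrix (Fin n) (Fin n) C) j j with hJ
    set P : Matrix (Fin n) (Fin n) C := Matrix.diagonal fun i => if J i then 1 else 0 with hP
    set A : Matrix (Fin n) (Fin n) C := (ρ g : Matrix (Fin n) (Fin n) C) with hA
    have hAJ : ∀ i l, A i l ≠ 0 → (J i ↔ J l) := by
      intro i l hil
      have hr := entry_rule (g := g) hN hD i l
      constructor
      · intro h w hw
        have h1 := hr w hw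
        rw [h _ (hN.conj_mem w hw g), hfix w hw, mul_comm] at h1
        exact mul_right_cancel₀ hil h1
      · intro h w hw
        have h0 := hN.conj_mem w hw g⁻¹
        have h1 := hr _ h0
        have h2 : g * (g⁻¹ * w * g⁻¹⁻¹) * g⁻¹ = w := by group
        have h3 := hfix _ h0
        rw [h2] at h1 h3
        rw [h _ h0, ← h3, mul_comm] at h1
        exact (mul_right_cancel₀ hil h1).symm
    have hcomm : P * A = A * P := by
      ext i l
      rw [hP, Matrix.diagonal_mul, Matrix.mul_diagonal]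
      by_cases hil : A i l = 0
      · rw [hil, mul_zero, zero_mul]
      · have h1 := hAJ i l hil
        by_cases hi : J i
        · rw [if_pos hi, if_pos (h1.1 hi), one_mul, mul_one]
        · rw [if_neg hi, if_neg (fun h => hi (h1.2 h)), zero_mul, mul_zero]
    have hPP : P * P = P := by
      rw [hP, Matrix.diagonal_mul_diagonal]
      congr 1
      funext i
      split_ifs <;> simp
    have htr : (∑ i, if J i then A i i else 0) = (A * P).charpoly.roots.sum := by
      rw [← Matrix.trace_eq_sum_roots_charpoly]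
      unfold Matrix.trace
      apply Finset.sum_congr rfl
      intro i _
      rw [Matrix.diag_apply, hP, Matrix.mul_diagonal]
      split_ifs <;> simp
    have heig : ∀ μ ∈ (A * P).charpoly.roots, μ ≠ 0 → ∃ v : Fin n → C, v ≠ 0 ∧
        A.mulVec v = μ • v ∧ ∀ u ∈ U, (ρ u : Matrix (Fin n) (Fin n) C).mulVec v =
          (ρ u : Matrix (Fin n) (Fin n) C) j j • v := by
      intro μ hμ hμ0
      have h1 : (A * P).charpoly.eval μ = 0 := (Polynomial.mem_roots'.1 hμ).2
      rw [Matrix.eval_charpoly] at h1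
      obtain ⟨v, hv, hv2⟩ := Matrix.exists_mulVec_eq_zero_iff.2 h1
      have h3 : (A * P).mulVec v = μ • v := by
        rw [Matrix.sub_mulVec, sub_eq_zero] at hv2
        rw [← hv2]
        funext i
        rw [Matrix.scalar_apply, Matrix.mulVec_diagonal]
        rfl
      have h4 : P.mulVec v = v := by
        have h5 : P.mulVec ((A * P).mulVec v) = (A * P).mulVec v := by
          rw [Matrix.mulVec_mulVec, ← Matrix.mul_assoc, hcomm, Matrix.mul_assoc, hPP]
        rw [h3, Matrix.mulVec_smul] at h5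
        exact smul_right_injective _ hμ0 h5
      refine ⟨v, hv, ?_, ?_⟩
      · rw [← h3, ← Matrix.mulVec_mulVec, h4]
      · intro u hu
        funext i
        rw [Pi.smul_apply, smul_eq_mul]
        have h6 : (ρ u : Matrix (Fin n) (Fin n) C).mulVec v i =
            (ρ u : Matrix (Fin n) (Fin n) C) i i * v i := by
          unfold Matrix.mulVec dotProduct
          rw [Finset.sum_eq_single i]
          · intro k _ hk
            show (ρ u : Matrix (Fin n) (Fin n) C) i k * v k = 0
            rw [hD u hu (Ne.symm hk), zero_mul]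
          · intro h
            exact absurd (Finset.mem_univ _) h
        rw [h6]
        by_cases hi : J i
        · rw [hi u hu]
        · have h7 := congrFun h4 i
          rw [hP, Matrix.mulVec_diagonal, if_neg hi, zero_mul] at h7
          rw [← h7, mul_zero, mul_zero]
    have key : ∀ s : Multiset C, (∀ μ ∈ s, μ ≠ 0 → ∃ v : Fin n → C, v ≠ 0 ∧
        A.mulVec v = μ • v ∧ ∀ u ∈ U, (ρ u : Matrix (Fin n) (Fin n) C).mulVec v =
          (ρ u : Matrix (Fin n) (Fin n) C) j j • v) →
        Good ρ U g (fun u => s.sum * (ρ u : Matrix (Fin n) (Fin n) C) j j) := by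
      intro s
      induction s using Multiset.induction_on with
      | empty =>
        intro _
        refine good_congr good_zero fun u _ => ?_
        rw [Multiset.sum_zero, zero_mul]
      | cons μ s ih =>
        intro hs
        have ih' := ih fun μ hμ => hs μ (Multiset.mem_cons_of_mem hμ)
        by_cases hμ : μ = 0
        · refine good_congr ih' fun u _ => ?_
          rw [Multiset.sum_cons, hμ, zero_add]
        · obtain ⟨v, hv, h1, h2⟩ := hs μ (Multiset.mem_cons_self μ s) hμ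
          refine good_congr (good_add (good_single j μ hμ v hv h1 h2 (diag_ne hD j)) ih')
            fun u _ => ?_
          rw [Multiset.sum_cons, add_mul]
    rw [htr]
    exact key _ heig
  · refine good_congr good_zero fun u _ => ?_
    push Not at hfix
    obtain ⟨w, hw, hne⟩ := hfix
    rw [Finset.sum_eq_zero, zero_mul]
    intro i _
    split_ifs with hi
    · have h1 := entry_rule (g := g) hN hD i i w hw
      rw [hi w hw, hi _ (hN.conj_mem w hw g), mul_comm] at h1
      by_contra h0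
      exact hne (mul_right_cancel₀ h0 h1).symm
    · rfl

open Classical in
theorem good_trace [IsAlgClosed C] (hN : U.Normal)
    (hD : ∀ u ∈ U, (ρ u : Matrix (Fin n) (Fin n) C).IsDiag) :
    Good ρ U g (fun u => (ρ (g * u) : Matrix (Fin n) (Fin n) C).trace) := by
  set c : Fin n → (U → C) := fun i u => (ρ u.1 : Matrix (Fin n) (Fin n) C) i i with hc
  have h1 : ∀ u ∈ U, (ρ (g * u) : Matrix (Fin n) (Fin n) C).trace =
      ∑ x ∈ Finset.univ.image c, ∑ i with c i = x,
        (ρ g : Matrix (Fin n) (Fin n) C) i i * (ρ u : Matrix (Fin n) (Fin n) C) i i := by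
    intro u hu
    rw [Finset.sum_fiberwise_of_maps_to (fun i _ => Finset.mem_image_of_mem c (Finset.mem_univ i))]
    unfold Matrix.trace
    apply Finset.sum_congr rfl
    intro i _
    rw [Matrix.diag_apply, map_mul, Units.val_mul, Matrix.mul_apply, Finset.sum_eq_single i]
    · intro k _ hk
      rw [hD u hu hk, mul_zero]
    · intro h
      exact absurd (Finset.mem_univ _) h
  refine good_congr ?_ h1
  apply good_sum
  intro x hx
  obtain ⟨j, -, rfl⟩ := Finset.mem_image.1 hx
  refine good_congr (good_class hN hD j) fun u hu => ?_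
  have hiff : ∀ i, c i = c j ↔ ∀ w ∈ U, (ρ w : Matrix (Fin n) (Fin n) C) i i =
      (ρ w : Matrix (Fin n) (Fin n) C) j j := by
    intro i
    constructor
    · intro h w hw
      exact congrFun h ⟨w, hw⟩
    · intro h
      funext w
      exact h w.1 w.2
  rw [Finset.sum_filter, Finset.sum_mul]
  apply Finset.sum_congr rfl
  intro i _
  by_cases hi : c i = c j
  · rw [if_pos hi, if_pos ((hiff i).1 hi), (hiff i).1 hi u hu]
  · rw [if_neg hi, if_neg (fun h => hi ((hiff i).2 h)), zero_mul]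

theorem main_core [IsAlgClosed C] (hN : U.Normal)
    (hD : ∀ u ∈ U, (ρ u : Matrix (Fin n) (Fin n) C).IsDiag) :
    ∃ (r : ℕ) (i : Fin r → Fin n) (ξ : Fin r → ((U ⊔ Subgroup.zpowers g : Subgroup G) →* Cˣ)),
      (∀ k, ∀ u ∈ U, ∀ h : u ∈ U ⊔ Subgroup.zpowers g,
        (ξ k ⟨u, h⟩ : C) = (ρ u : Matrix (Fin n) (Fin n) C) (i k) (i k)) ∧
      ∀ u ∈ U, ∀ h : g * u ∈ U ⊔ Subgroup.zpowers g,
        (ρ (g * u) : Matrix (Fin n) (Fin n) C).trace = ∑ k, (ξ k ⟨g * u, h⟩ : C) := by
  obtain ⟨κ, _, i, ξ, h1, h2⟩ := good_trace (g := g) hN hD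
  let e := (Fintype.equivFin κ).symm
  refine ⟨Fintype.card κ, fun k => i (e k), fun k => ξ (e k), fun k => h1 (e k), ?_⟩
  intro u hu h
  exact (h2 u hu h).trans (Equiv.sum_comp e fun k => (ξ k ⟨g * u, h⟩ : C)).symm

end

end Pool.Agent.H640.ME.LA
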