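import Pool.Agent.H500.ME.Stm
import Pool.Agent.H640.ME.LAcore

/-! Project ME: job C1 (traces on a coset). -/

set_option autoImplicit false

namespace Pool.Agent.H640.ME.LA

theorem main : Pool.Agent.H500.ME.S_LA := by
  intro G _ U n C _ _ _ ρ hN _ hD g
  exact main_core hN hD

end Pool.Agent.H640.ME.LA
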